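import Mathlib

set_option autoImplicit false

/-! # Triple systems in which every five points span a triple

If few four-point sets span exactly two triples then the density is at least one quarter. -/

namespace Pool.Agent.MP_19b7b8_co.T53

open Finset

section counting
variable {V : Type*} [DecidableEq V]

/-- number of members of `F` inside `W` -/
def E (F : Finset (Finset V)) (W : Finset V) : ℕ := (F.filter (· ⊆ W)).card

theorem card_super (W A : Finset V) (k : ℕ) :
    ((W.powersetCard k).filter (A ⊆ ·)).card ≤ (W.card - A.card).choose (k - A.card) := by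
  by_cases hA : A ⊆ W
  · rw [← card_sdiff_of_subset hA, ← card_powersetCard]
    refine card_le_card_of_injOn (fun S => S \ A) ?_ ?_
    · intro S hS
      simp only [coe_filter, mem_powersetCard, Set.mem_ofPred_eq] at hS
      obtain ⟨⟨h1, h2⟩, h3⟩ := hS
      simp only [mem_coe, mem_powersetCard]
      exact ⟨sdiff_subset_sdiff h1 (le_refl A), by rw [card_sdiff_of_subset h3, h2]⟩
    · intro S hS S' hS' h
      simp only [coe_filter, mem_powersetCard, Set.mem_ofPred_eq] at hS hS'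
      have h1 := sdiff_union_of_subset hS.2
      have h2 := sdiff_union_of_subset hS'.2
      simp only at h
      rw [← h1, ← h2, h]
  · rw [filter_eq_empty_iff.mpr]
    · simp
    · intro S hS h
      exact hA (h.trans (mem_powersetCard.mp hS).1)

theorem card_cover (W : Finset V) (𝒜 : Finset (Finset V)) (a k c : ℕ) (ha : ∀ A ∈ 𝒜, A.card = a)
    (hc : (W.card - a).choose (k - a) ≤ c) :
    ((W.powersetCard k).filter fun S => ∃ A ∈ 𝒜, A ⊆ S).card ≤ 𝒜.card * c := by
  have h1 : ((W.powersetCard k).filter fun S => ∃ A ∈ 𝒜, A ⊆ S) ⊆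
      𝒜.biUnion fun A => (W.powersetCard k).filter (A ⊆ ·) := by
    intro S hS
    simp only [mem_filter] at hS
    obtain ⟨h1, A, h2, h3⟩ := hS
    exact mem_biUnion.mpr ⟨A, h2, mem_filter.mpr ⟨h1, h3⟩⟩
  refine (card_le_card h1).trans (card_biUnion_le_card_mul _ _ _ fun A hA => ?_)
  refine (card_super W A k).trans ?_
  rw [ha A hA]
  exact hc

theorem double_count (𝒬 ℬ : Finset (Finset V)) (hQ : ∀ Q ∈ 𝒬, Q.card = 4)
    (hB : ∀ S ∈ ℬ, S.card = 6) :
    ∑ Q ∈ 𝒬, (ℬ.filter (Q ⊆ ·)).card ≤ 15 * ℬ.card := by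
  have h1 := sum_card_bipartiteAbove_eq_sum_card_bipartiteBelow
    (s := 𝒬) (t := ℬ) (fun (Q S : Finset V) => Q ⊆ S)
  unfold bipartiteAbove bipartiteBelow at h1
  rw [h1, mul_comm, ← smul_eq_mul]
  refine sum_le_card_nsmul _ _ _ fun S hS => ?_
  have h2 : 𝒬.filter (· ⊆ S) ⊆ S.powersetCard 4 := by
    intro Q hQ'
    rw [mem_filter] at hQ'
    exact mem_powersetCard.mpr ⟨hQ'.2, hQ Q hQ'.1⟩
  refine (card_le_card h2).trans ?_
  rw [card_powersetCard, hB S hS]
  decide

theorem edges_four (F : Finset (Finset V)) (hF : ∀ e ∈ F, e.card = 3) (W : Finset V) :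
    W.card.choose 4 ≤ ((W.powersetCard 4).filter (E F · = 0)).card + (W.card - 3) * E F W := by
  have h1 : W.card.choose 4 = ((W.powersetCard 4).filter (E F · = 0)).card +
      ((W.powersetCard 4).filter (¬ E F · = 0)).card := by
    rw [card_filter_add_card_filter_not, card_powersetCard]
  rw [h1]
  refine Nat.add_le_add_left ?_ _
  have h2 : ((W.powersetCard 4).filter (¬ E F · = 0)) ⊆
      ((W.powersetCard 4).filter fun S => ∃ A ∈ F.filter (· ⊆ W), A ⊆ S) := by
    intro S hS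
    rw [mem_filter] at hS ⊢
    refine ⟨hS.1, ?_⟩
    obtain ⟨e, he⟩ := card_pos.mp (Nat.pos_of_ne_zero hS.2)
    rw [mem_filter] at he
    exact ⟨e, mem_filter.mpr ⟨he.1, he.2.trans (mem_powersetCard.mp hS.1).1⟩, he.2⟩
  refine (card_le_card h2).trans ?_
  rw [mul_comm]
  refine card_cover W _ 3 4 _ (fun A hA => hF A (mem_filter.mp hA).1) ?_
  simp

end counting

/-! ### the number of edges in small sets -/

section small
variable {V : Type*} [DecidableEq V]

/-- the indicator -/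
def ind (F : Finset (Finset V)) (e : Finset V) : ℕ := (decide (e ∈ F)).toNat

/-- sum over the `k`-subsets -/
def sk (k : ℕ) (W : Finset V) (f : Finset V → ℕ) : ℕ := ∑ e ∈ W.powersetCard k, f e

omit [DecidableEq V] in
theorem sk_zero (W : Finset V) (f : Finset V → ℕ) : sk 0 W f = f ∅ := by simp [sk]

omit [DecidableEq V] in
theorem sk_empty (k : ℕ) (f : Finset V → ℕ) : sk (k + 1) ∅ f = 0 := by
  unfold sk
  rw [powersetCard_eq_empty.mpr (by simp), sum_empty]

theorem sk_insert (k : ℕ) (x : V) (W : Finset V) (hx : x ∉ W) (f : Finset V → ℕ) :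
    sk (k + 1) (insert x W) f = sk (k + 1) W f + sk k W fun e => f (insert x e) := by
  unfold sk
  rw [powersetCard_succ_insert hx, sum_union, sum_image]
  · intro e he e' he' h
    have h1 : x ∉ e := fun h' => hx ((mem_powersetCard.mp he).1 h')
    have h2 : x ∉ e' := fun h' => hx ((mem_powersetCard.mp he').1 h')
    rw [← erase_insert h1, ← erase_insert h2, h]
  · rw [disjoint_left]
    intro e he he'
    obtain ⟨e', -, rfl⟩ := mem_image.mp he'
    exact hx ((mem_powersetCard.mp he).1 (mem_insert_self x e'))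

theorem E_eq (F : Finset (Finset V)) (hF : ∀ e ∈ F, e.card = 3) (W : Finset V) :
    E F W = sk 3 W (ind F) := by
  unfold E sk ind
  have h1 : F.filter (· ⊆ W) = (W.powersetCard 3).filter (· ∈ F) := by
    ext e
    simp only [mem_filter, mem_powersetCard]
    exact ⟨fun h => ⟨⟨h.2, hF e h.1⟩, h.1⟩, fun h => ⟨h.2, h.1.1⟩⟩
  rw [h1, card_filter]
  refine sum_congr rfl fun e _ => ?_
  by_cases h : e ∈ F <;> simp [h]

theorem E4 (F : Finset (Finset V)) (hF : ∀ e ∈ F, e.card = 3) (a b c d : V)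
    (hab : a ≠ b) (hac : a ≠ c) (had : a ≠ d) (hbc : b ≠ c) (hbd : b ≠ d) (hcd : c ≠ d) :
    E F {a, b, c, d} = ind F {a, b, c} + ind F {a, b, d} + ind F {a, c, d} + ind F {b, c, d} := by
  rw [E_eq F hF]
  have h1 : a ∉ ({b, c, d} : Finset V) := by simp [hab, hac, had]
  have h2 : b ∉ ({c, d} : Finset V) := by simp [hbc, hbd]
  have h3 : c ∉ ({d} : Finset V) := by simp [hcd]
  have h4 : d ∉ (∅ : Finset V) := by simp
  have h5 : ({d} : Finset V) = insert d ∅ := by simp
  simp only [sk_insert _ _ _ h1, sk_insert _ _ _ h2, sk_insert _ _ _ h3]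
  simp only [h5, sk_insert _ _ _ h4, sk_zero, sk_empty]
  simp only [insert_empty_eq]
  ring

theorem E5 (F : Finset (Finset V)) (hF : ∀ e ∈ F, e.card = 3) (a b c d e : V)
    (hab : a ≠ b) (hac : a ≠ c) (had : a ≠ d) (hae : a ≠ e) (hbc : b ≠ c) (hbd : b ≠ d)
    (hbe : b ≠ e) (hcd : c ≠ d) (hce : c ≠ e) (hde : d ≠ e) :
    E F {a, b, c, d, e} = ind F {a, b, c} + ind F {a, b, d} + ind F {a, c, d} + ind F {b, c, d} +
      (ind F {a, b, e} + ind F {a, c, e} + ind F {a, d, e} + ind F {b, c, e} + ind F {b, d, e} +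
        ind F {c, d, e}) := by
  rw [E_eq F hF]
  have h1 : a ∉ ({b, c, d, e} : Finset V) := by simp [hab, hac, had, hae]
  have h2 : b ∉ ({c, d, e} : Finset V) := by simp [hbc, hbd, hbe]
  have h3 : c ∉ ({d, e} : Finset V) := by simp [hcd, hce]
  have h4 : d ∉ ({e} : Finset V) := by simp [hde]
  have h5 : e ∉ (∅ : Finset V) := by simp
  have h6 : ({e} : Finset V) = insert e ∅ := by simp
  simp only [sk_insert _ _ _ h1, sk_insert _ _ _ h2, sk_insert _ _ _ h3, sk_insert _ _ _ h4]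
  simp only [h6, sk_insert _ _ _ h5, sk_zero, sk_empty]
  simp only [insert_empty_eq]
  ring

end small

/-! ### the local lemma -/

section local1

/-- not exactly two -/
def n4 (x y z t : Bool) : Bool := !(x.toNat + y.toNat + z.toNat + t.toNat == 2)

/-- neither zero nor two -/
def n5 (a b c d e f g h i j : Bool) : Bool :=
  !(a.toNat + b.toNat + c.toNat + d.toNat +
    (e.toNat + f.toNat + g.toNat + h.toNat + i.toNat + j.toNat) == 0) &&
  !(a.toNat + b.toNat + c.toNat + d.toNat +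
    (e.toNat + f.toNat + g.toNat + h.toNat + i.toNat + j.toNat) == 2)

/-- the possible links -/
def vp (p01 p02 p03 p12 p13 p23 : Bool) : Bool :=
  n4 false p01 p02 p12 && n4 false p01 p03 p13 && n4 false p02 p03 p23 && n4 false p12 p13 p23 &&
    n5 false false false false p01 p02 p03 p12 p13 p23

/-- the conditions on a pair -/
def vd (p01 p02 p03 p12 p13 p23 q01 q02 q03 q12 q13 q23 d0 d1 d2 d3 : Bool) : Bool :=
  n4 p01 q01 d0 d1 && n4 p02 q02 d0 d2 && n4 p03 q03 d0 d3 && n4 p12 q12 d1 d2 &&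
  n4 p13 q13 d1 d3 && n4 p23 q23 d2 d3 &&
  n5 false p01 p02 p12 q01 q02 d0 q12 d1 d2 && n5 false p01 p03 p13 q01 q03 d0 q13 d1 d3 &&
  n5 false p02 p03 p23 q02 q03 d0 q23 d2 d3 && n5 false p12 p13 p23 q12 q13 d1 q23 d2 d3

/-- the conclusion -/
def vc (p01 p02 p03 q01 q02 q03 d0 d1 d2 d3 : Bool) : Bool :=
  Nat.ble 2 (d0.toNat + d1.toNat + d2.toNat + d3.toNat) || xor (p01 || p02 || p03) (q01 || q02 || q03)

/-- for all Booleans -/
def ab (f : Bool → Bool) : Bool := f false && f true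

theorem ab_iff (f : Bool → Bool) : ab f = true ↔ ∀ b, f b = true := by
  unfold ab
  rw [Bool.and_eq_true]
  exact ⟨fun h b => by cases b; exacts [h.1, h.2], fun h => ⟨h _, h _⟩⟩

/-- the finite check -/
def chk : Bool :=
  ab fun p01 => ab fun p02 => ab fun p03 => ab fun p12 => ab fun p13 => ab fun p23 =>
    !(vp p01 p02 p03 p12 p13 p23) ||
  ab fun q01 => ab fun q02 => ab fun q03 => ab fun q12 => ab fun q13 => ab fun q23 =>
    !(vp q01 q02 q03 q12 q13 q23) ||
  ab fun d0 => ab fun d1 => ab fun d2 => ab fun d3 =>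
    !(vd p01 p02 p03 p12 p13 p23 q01 q02 q03 q12 q13 q23 d0 d1 d2 d3) ||
      vc p01 p02 p03 q01 q02 q03 d0 d1 d2 d3

theorem chk_true : chk = true := by decide +kernel

theorem or_imp (a b : Bool) : (!a || b) = true ↔ (a = true → b = true) := by
  cases a <;> cases b <;> simp

theorem bool_lemma (p01 p02 p03 p12 p13 p23 q01 q02 q03 q12 q13 q23 d0 d1 d2 d3 : Bool)
    (hp : vp p01 p02 p03 p12 p13 p23 = true) (hq : vp q01 q02 q03 q12 q13 q23 = true)
    (hd : vd p01 p02 p03 p12 p13 p23 q01 q02 q03 q12 q13 q23 d0 d1 d2 d3 = true) :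
    vc p01 p02 p03 q01 q02 q03 d0 d1 d2 d3 = true := by
  have h := chk_true
  unfold chk at h
  simp only [ab_iff, or_imp] at h
  exact h p01 p02 p03 p12 p13 p23 hp q01 q02 q03 q12 q13 q23 hq d0 d1 d2 d3 hd

end local1

section local2
variable {V : Type*} [DecidableEq V]

/-- the indicator as a Boolean -/
def bb (F : Finset (Finset V)) (e : Finset V) : Bool := decide (e ∈ F)

theorem n4_of (F : Finset (Finset V)) (hF : ∀ e ∈ F, e.card = 3) (S : Finset V)
    (h4 : ∀ A ⊆ S, A.card = 4 → E F A ≠ 2) (x y z t : V) (hxy : x ≠ y) (hxz : x ≠ z)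
    (hxt : x ≠ t) (hyz : y ≠ z) (hyt : y ≠ t) (hzt : z ≠ t)
    (mx : x ∈ S) (my : y ∈ S) (mz : z ∈ S) (mt : t ∈ S) :
    n4 (bb F {x, y, z}) (bb F {x, y, t}) (bb F {x, z, t}) (bb F {y, z, t}) = true := by
  have h := h4 {x, y, z, t} (by
    intro u hu
    simp only [mem_insert, mem_singleton] at hu
    rcases hu with rfl | rfl | rfl | rfl <;> assumption) (by
    rw [card_insert_of_notMem (by simp [hxy, hxz, hxt]), card_insert_of_notMem (by simp [hyz, hyt]),
      card_insert_of_notMem (by simp [hzt]), card_singleton])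
  rw [E4 F hF x y z t hxy hxz hxt hyz hyt hzt] at h
  unfold n4 bb
  unfold ind at h
  rw [Bool.not_eq_true', beq_eq_false_iff_ne]
  exact h

theorem n5_of (F : Finset (Finset V)) (hF : ∀ e ∈ F, e.card = 3) (S : Finset V)
    (h5 : ∀ A ⊆ S, A.card = 5 → E F A ≠ 0 ∧ E F A ≠ 2) (x y z t s : V) (hxy : x ≠ y) (hxz : x ≠ z)
    (hxt : x ≠ t) (hxs : x ≠ s) (hyz : y ≠ z) (hyt : y ≠ t) (hys : y ≠ s) (hzt : z ≠ t)
    (hzs : z ≠ s) (hts : t ≠ s)
    (mx : x ∈ S) (my : y ∈ S) (mz : z ∈ S) (mt : t ∈ S) (ms : s ∈ S) :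
    n5 (bb F {x, y, z}) (bb F {x, y, t}) (bb F {x, z, t}) (bb F {y, z, t}) (bb F {x, y, s})
      (bb F {x, z, s}) (bb F {x, t, s}) (bb F {y, z, s}) (bb F {y, t, s}) (bb F {z, t, s}) =
      true := by
  have h := h5 {x, y, z, t, s} (by
    intro u hu
    simp only [mem_insert, mem_singleton] at hu
    rcases hu with rfl | rfl | rfl | rfl | rfl <;> assumption) (by
    rw [card_insert_of_notMem (by simp [hxy, hxz, hxt, hxs]),
      card_insert_of_notMem (by simp [hyz, hyt, hys]), card_insert_of_notMem (by simp [hzt, hzs]),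
      card_insert_of_notMem (by simp [hts]), card_singleton])
  rw [E5 F hF x y z t s hxy hxz hxt hxs hyz hyt hys hzt hzs hts] at h
  unfold n5 bb
  unfold ind at h
  rw [Bool.and_eq_true, Bool.not_eq_true', Bool.not_eq_true', beq_eq_false_iff_ne,
    beq_eq_false_iff_ne]
  exact h

theorem local_lemma (F : Finset (Finset V)) (hF : ∀ e ∈ F, e.card = 3) (a b c d v w : V)
    (hab : a ≠ b) (hac : a ≠ c) (had : a ≠ d) (hbc : b ≠ c) (hbd : b ≠ d) (hcd : c ≠ d)
    (hav : a ≠ v) (hbv : b ≠ v) (hcv : c ≠ v) (hdv : d ≠ v) (haw : a ≠ w) (hbw : b ≠ w)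
    (hcw : c ≠ w) (hdw : d ≠ w) (hvw : v ≠ w)
    (h0 : E F {a, b, c, d} = 0) (S : Finset V) (ma : a ∈ S) (mb : b ∈ S) (mc : c ∈ S)
    (md : d ∈ S) (mv : v ∈ S) (mw : w ∈ S)
    (h4 : ∀ A ⊆ S, A.card = 4 → E F A ≠ 2)
    (h5 : ∀ A ⊆ S, A.card = 5 → E F A ≠ 0 ∧ E F A ≠ 2) :
    2 ≤ ind F {a, v, w} + ind F {b, v, w} + ind F {c, v, w} + ind F {d, v, w} ∨
      ((∃ x ∈ ({b, c, d} : Finset V), {a, x, v} ∈ F) ↔
        ¬ ∃ x ∈ ({b, c, d} : Finset V), {a, x, w} ∈ F) := by
  rw [E4 F hF a b c d hab hac had hbc hbd hcd] at h0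
  have hz : ∀ e : Finset V, ind F e = 0 → bb F e = false := by
    intro e he
    unfold ind at he
    unfold bb
    revert he
    cases decide (e ∈ F) <;> simp
  have z1 := hz {a, b, c} (by omega)
  have z2 := hz {a, b, d} (by omega)
  have z3 := hz {a, c, d} (by omega)
  have z4 := hz {b, c, d} (by omega)
  have t1 := n4_of F hF S h4 a b c v hab hac hav hbc hbv hcv ma mb mc mv
  have t2 := n4_of F hF S h4 a b d v hab had hav hbd hbv hdv ma mb md mv
  have t3 := n4_of F hF S h4 a c d v hac had hav hcd hcv hdv ma mc md mv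
  have t4 := n4_of F hF S h4 b c d v hbc hbd hbv hcd hcv hdv mb mc md mv
  have u1 := n4_of F hF S h4 a b c w hab hac haw hbc hbw hcw ma mb mc mw
  have u2 := n4_of F hF S h4 a b d w hab had haw hbd hbw hdw ma mb md mw
  have u3 := n4_of F hF S h4 a c d w hac had haw hcd hcw hdw ma mc md mw
  have u4 := n4_of F hF S h4 b c d w hbc hbd hbw hcd hcw hdw mb mc md mw
  have r1 := n4_of F hF S h4 a b v w hab hav haw hbv hbw hvw ma mb mv mw
  have r2 := n4_of F hF S h4 a c v w hac hav haw hcv hcw hvw ma mc mv mw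
  have r3 := n4_of F hF S h4 a d v w had hav haw hdv hdw hvw ma md mv mw
  have r4 := n4_of F hF S h4 b c v w hbc hbv hbw hcv hcw hvw mb mc mv mw
  have r5 := n4_of F hF S h4 b d v w hbd hbv hbw hdv hdw hvw mb md mv mw
  have r6 := n4_of F hF S h4 c d v w hcd hcv hcw hdv hdw hvw mc md mv mw
  have k1 := n5_of F hF S h5 a b c d v hab hac had hav hbc hbd hbv hcd hcv hdv ma mb mc md mv
  have k2 := n5_of F hF S h5 a b c d w hab hac had haw hbc hbd hbw hcd hcw hdw ma mb mc md mw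
  have k3 := n5_of F hF S h5 a b c v w hab hac hav haw hbc hbv hbw hcv hcw hvw ma mb mc mv mw
  have k4 := n5_of F hF S h5 a b d v w hab had hav haw hbd hbv hbw hdv hdw hvw ma mb md mv mw
  have k5 := n5_of F hF S h5 a c d v w hac had hav haw hcd hcv hcw hdv hdw hvw ma mc md mv mw
  have k6 := n5_of F hF S h5 b c d v w hbc hbd hbv hbw hcd hcv hcw hdv hdw hvw mb mc md mv mw
  rw [z1] at t1 u1 k1 k2 k3
  rw [z2] at t2 u2 k1 k2 k4
  rw [z3] at t3 u3 k1 k2 k5
  rw [z4] at t4 u4 k1 k2 k6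
  have key := bool_lemma _ _ _ _ _ _ _ _ _ _ _ _ _ _ _ _
    (by unfold vp; rw [t1, t2, t3, t4, k1]; rfl : vp (bb F {a, b, v}) (bb F {a, c, v})
      (bb F {a, d, v}) (bb F {b, c, v}) (bb F {b, d, v}) (bb F {c, d, v}) = true)
    (by unfold vp; rw [u1, u2, u3, u4, k2]; rfl : vp (bb F {a, b, w}) (bb F {a, c, w})
      (bb F {a, d, w}) (bb F {b, c, w}) (bb F {b, d, w}) (bb F {c, d, w}) = true)
    (by unfold vd; rw [r1, r2, r3, r4, r5, r6, k3, k4, k5, k6]; rfl :
      vd (bb F {a, b, v}) (bb F {a, c, v})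
      (bb F {a, d, v}) (bb F {b, c, v}) (bb F {b, d, v}) (bb F {c, d, v})
      (bb F {a, b, w}) (bb F {a, c, w})
      (bb F {a, d, w}) (bb F {b, c, w}) (bb F {b, d, w}) (bb F {c, d, w})
      (bb F {a, v, w}) (bb F {b, v, w}) (bb F {c, v, w}) (bb F {d, v, w}) = true)
  unfold vc at key
  rw [Bool.or_eq_true] at key
  rcases key with key | key
  · left
    exact Nat.le_of_ble_eq_true key
  · right
    have e1 : (∃ x ∈ ({b, c, d} : Finset V), {a, x, v} ∈ F) ↔
        (bb F {a, b, v} || bb F {a, c, v} || bb F {a, d, v}) = true := by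
      simp [bb, or_assoc]
    have e2 : (∃ x ∈ ({b, c, d} : Finset V), {a, x, w} ∈ F) ↔
        (bb F {a, b, w} || bb F {a, c, w} || bb F {a, d, w}) = true := by
      simp [bb, or_assoc]
    rw [e1, e2]
    generalize (bb F {a, b, v} || bb F {a, c, v} || bb F {a, d, v}) = X at key ⊢
    generalize (bb F {a, b, w} || bb F {a, c, w} || bb F {a, d, w}) = Y at key ⊢
    revert key
    cases X <;> cases Y <;> simp

theorem n4_bool : ∀ p q x y : Bool, n4 p q x y = true → p = true → q = true →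
    (x || y) = true := by decide

theorem n4_bool' : ∀ p q x y : Bool, n4 p q x y = true → p = false → q = false →
    (x && y) = false := by decide

theorem final_bool : ∀ x y z t : Bool, (x || y) = true → (z || t) = true →
    (x && z) = false → (x && t) = false → (y && z) = false → (y && t) = false → False := by
  decide

/-- two vertices with the same links (perfect matchings) -/
theorem local_lemma2 (F : Finset (Finset V)) (hF : ∀ e ∈ F, e.card = 3) (a b c d v w : V)
    (hab : a ≠ b) (hac : a ≠ c) (had : a ≠ d) (hbc : b ≠ c) (hbd : b ≠ d) (hcd : c ≠ d)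
    (hav : a ≠ v) (hbv : b ≠ v) (hcv : c ≠ v) (hdv : d ≠ v) (haw : a ≠ w) (hbw : b ≠ w)
    (hcw : c ≠ w) (hdw : d ≠ w) (hvw : v ≠ w)
    (h1 : {a, b, v} ∈ F) (h2 : {c, d, v} ∈ F) (h3 : {a, b, w} ∈ F) (h4 : {c, d, w} ∈ F)
    (h5 : E F {a, b, c, d, v} = 2) (h6 : E F {a, b, c, d, w} = 2)
    (S : Finset V) (ma : a ∈ S) (mb : b ∈ S) (mc : c ∈ S)
    (md : d ∈ S) (mv : v ∈ S) (mw : w ∈ S)
    (hS : ∀ A ⊆ S, A.card = 4 → E F A ≠ 2) : False := by
  rw [E5 F hF a b c d v hab hac had hav hbc hbd hbv hcd hcv hdv] at h5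
  rw [E5 F hF a b c d w hab hac had haw hbc hbd hbw hcd hcw hdw] at h6
  have hz : ∀ e : Finset V, ind F e = 0 → bb F e = false := by
    intro e he
    unfold ind at he
    unfold bb
    revert he
    cases decide (e ∈ F) <;> simp
  have hone : ∀ e : Finset V, e ∈ F → ind F e = 1 := by
    intro e he
    simp [ind, he]
  have hone' : ∀ e : Finset V, e ∈ F → bb F e = true := by
    intro e he
    simp [bb, he]
  rw [hone _ h1, hone _ h2] at h5
  rw [hone _ h3, hone _ h4] at h6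
  have a1 := hz {a, c, v} (by omega)
  have a2 := hz {a, d, v} (by omega)
  have a3 := hz {b, c, v} (by omega)
  have a4 := hz {b, d, v} (by omega)
  have b1 := hz {a, c, w} (by omega)
  have b2 := hz {a, d, w} (by omega)
  have b3 := hz {b, c, w} (by omega)
  have b4 := hz {b, d, w} (by omega)
  have r1 := n4_of F hF S hS a b v w hab hav haw hbv hbw hvw ma mb mv mw
  have r2 := n4_of F hF S hS a c v w hac hav haw hcv hcw hvw ma mc mv mw
  have r3 := n4_of F hF S hS a d v w had hav haw hdv hdw hvw ma md mv mw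
  have r4 := n4_of F hF S hS b c v w hbc hbv hbw hcv hcw hvw mb mc mv mw
  have r5 := n4_of F hF S hS b d v w hbd hbv hbw hdv hdw hvw mb md mv mw
  have r6 := n4_of F hF S hS c d v w hcd hcv hcw hdv hdw hvw mc md mv mw
  exact final_bool _ _ _ _ (n4_bool _ _ _ _ r1 (hone' _ h1) (hone' _ h3))
    (n4_bool _ _ _ _ r6 (hone' _ h2) (hone' _ h4)) (n4_bool' _ _ _ _ r2 a1 b1)
    (n4_bool' _ _ _ _ r3 a2 b2) (n4_bool' _ _ _ _ r4 a3 b3) (n4_bool' _ _ _ _ r5 a4 b4)

end local2

section sets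
variable {V : Type*} [DecidableEq V]

/-- independent sets of size four -/
def P0 (F : Finset (Finset V)) (W : Finset V) : Finset (Finset V) :=
  (W.powersetCard 4).filter (E F · = 0)

/-- four points with exactly two edges -/
def M4 (F : Finset (Finset V)) (W : Finset V) : Finset (Finset V) :=
  (W.powersetCard 4).filter (E F · = 2)

/-- five points with exactly two edges, with one point in common -/
def C3 (F : Finset (Finset V)) (W : Finset V) : Finset (Finset V) :=
  (W.powersetCard 5).filter fun B => E F B = 2 ∧ ∀ A ∈ B.powersetCard 4, E F A ≠ 2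

/-- six points containing four points with exactly two edges -/
def M6 (F : Finset (Finset V)) (W : Finset V) : Finset (Finset V) :=
  (W.powersetCard 6).filter fun S => ∃ A ∈ M4 F W, A ⊆ S

/-- bad sets of size six -/
def B6 (F : Finset (Finset V)) (W : Finset V) : Finset (Finset V) :=
  (W.powersetCard 6).filter fun S => (∃ A ∈ M4 F W, A ⊆ S) ∨ ∃ B ∈ C3 F W, B ⊆ S

theorem E_mono (F : Finset (Finset V)) {A B : Finset V} (h : A ⊆ B) : E F A ≤ E F B :=
  card_le_card fun e he => by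
    rw [mem_filter] at he ⊢
    exact ⟨he.1, he.2.trans h⟩

theorem card_M6 (F : Finset (Finset V)) (W : Finset V) :
    (M6 F W).card ≤ (M4 F W).card * (W.card - 4).choose 2 :=
  card_cover W (M4 F W) 4 6 _ (fun A hA => (mem_powersetCard.mp (mem_filter.mp hA).1).2) le_rfl

theorem card_B6 (F : Finset (Finset V)) (W : Finset V) :
    (B6 F W).card ≤ (M6 F W).card + (C3 F W).card * (W.card - 5) := by
  unfold B6
  rw [filter_or]
  refine (card_union_le _ _).trans (Nat.add_le_add_left ?_ _)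
  refine card_cover W (C3 F W) 5 6 _ (fun A hA => (mem_powersetCard.mp (mem_filter.mp hA).1).2) ?_
  simp

theorem not_B6 (F : Finset (Finset V)) (W S : Finset V) (hS : S ∈ W.powersetCard 6)
    (hb : S ∉ B6 F W) : (∀ A ⊆ S, A.card = 4 → E F A ≠ 2) ∧
      ∀ A ⊆ S, A.card = 5 → E F A ≠ 2 := by
  have hSW := (mem_powersetCard.mp hS).1
  have h4 : ∀ A ⊆ S, A.card = 4 → E F A ≠ 2 := by
    intro A hA hc h2
    apply hb
    unfold B6
    rw [mem_filter]
    refine ⟨hS, Or.inl ⟨A, ?_, hA⟩⟩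
    unfold M4
    rw [mem_filter, mem_powersetCard]
    exact ⟨⟨hA.trans hSW, hc⟩, h2⟩
  refine ⟨h4, fun B hB hc h2 => hb ?_⟩
  unfold B6
  rw [mem_filter]
  refine ⟨hS, Or.inr ⟨B, ?_, hB⟩⟩
  unfold C3
  rw [mem_filter, mem_powersetCard]
  refine ⟨⟨hB.trans hSW, hc⟩, h2, fun A hA => ?_⟩
  rw [mem_powersetCard] at hA
  exact h4 A (hA.1.trans hB) hA.2

/-- vertices whose link in `Q` is the matching `π`, `Q \ π` -/
def U (F : Finset (Finset V)) (W Q π : Finset V) : Finset V :=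
  (W \ Q).filter fun u => insert u π ∈ F ∧ insert u (Q \ π) ∈ F ∧ E F (insert u Q) = 2

theorem C3_struct (F : Finset (Finset V)) (hF : ∀ e ∈ F, e.card = 3) (W : Finset V)
    (q0 : Finset V → V) (hq0 : ∀ Q, Q.Nonempty → q0 Q ∈ Q) (B : Finset V) (hB : B ∈ C3 F W) :
    ∃ Q ∈ P0 F W, ∃ π ∈ (Q.powersetCard 2).filter (q0 Q ∈ ·), ∃ u ∈ U F W Q π,
      insert u Q = B := by
  unfold C3 at hB
  rw [mem_filter, mem_powersetCard] at hB
  obtain ⟨⟨hBW, hB5⟩, hE, hM⟩ := hB
  have hE' := hE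
  unfold E at hE
  obtain ⟨e1, e2, hne, hfil⟩ := card_eq_two.mp hE
  have m1 : e1 ∈ F ∧ e1 ⊆ B := by
    have : e1 ∈ F.filter (· ⊆ B) := by rw [hfil]; simp
    exact mem_filter.mp this
  have m2 : e2 ∈ F ∧ e2 ⊆ B := by
    have : e2 ∈ F.filter (· ⊆ B) := by rw [hfil]; simp
    exact mem_filter.mp this
  have hall : ∀ e ∈ F, e ⊆ B → e = e1 ∨ e = e2 := by
    intro e he heB
    have : e ∈ F.filter (· ⊆ B) := mem_filter.mpr ⟨he, heB⟩
    rw [hfil] at this
    simpa using this
  have c1 := hF e1 m1.1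
  have c2 := hF e2 m2.1
  have hui := card_union_add_card_inter e1 e2
  have huB : (e1 ∪ e2).card ≤ 5 := by
    rw [← hB5]
    exact card_le_card (union_subset m1.2 m2.2)
  have hu4 : 4 ≤ (e1 ∪ e2).card := by
    by_contra hlt
    have h1 : (e1 ∪ e2).card ≤ e1.card := by omega
    have h2 := eq_of_subset_of_card_le subset_union_left h1
    have h3 : (e1 ∪ e2).card ≤ e2.card := by omega
    have h4 := eq_of_subset_of_card_le subset_union_right h3
    exact hne (h2.trans h4.symm)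
  have hu5 : (e1 ∪ e2).card = 5 := by
    by_contra hne5
    have h4 : (e1 ∪ e2).card = 4 := by omega
    apply hM (e1 ∪ e2) (mem_powersetCard.mpr ⟨union_subset m1.2 m2.2, h4⟩)
    apply le_antisymm
    · rw [← hE']
      exact E_mono F (union_subset m1.2 m2.2)
    · unfold E
      rw [← card_pair hne]
      apply card_le_card
      intro e he
      simp only [mem_insert, mem_singleton] at he
      rw [mem_filter]
      rcases he with rfl | rfl
      · exact ⟨m1.1, subset_union_left⟩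
      · exact ⟨m2.1, subset_union_right⟩
  have hun : e1 ∪ e2 = B := eq_of_subset_of_card_le (union_subset m1.2 m2.2) (by rw [hu5, hB5])
  obtain ⟨u, hu⟩ := card_eq_one.mp (by omega : (e1 ∩ e2).card = 1)
  have hu1 : u ∈ e1 ∧ u ∈ e2 := by
    have : u ∈ e1 ∩ e2 := by rw [hu]; simp
    exact mem_inter.mp this
  have hint : ∀ z, z ∈ e1 → z ∈ e2 → z = u := by
    intro z h1 h2
    have : z ∈ e1 ∩ e2 := mem_inter.mpr ⟨h1, h2⟩
    rw [hu] at this
    simpa using this
  have huB' : u ∈ B := m1.2 hu1.1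
  have hQ4 : (B.erase u).card = 4 := by rw [card_erase_of_mem huB', hB5]
  have hQE : E F (B.erase u) = 0 := by
    unfold E
    rw [card_eq_zero, filter_eq_empty_iff]
    intro e he heQ
    rcases hall e he (heQ.trans (erase_subset _ _)) with rfl | rfl
    · exact notMem_erase u B (heQ hu1.1)
    · exact notMem_erase u B (heQ hu1.2)
  have hQP : B.erase u ∈ P0 F W := by
    unfold P0
    rw [mem_filter, mem_powersetCard]
    exact ⟨⟨(erase_subset _ _).trans hBW, hQ4⟩, hQE⟩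
  have hs1 : B.erase u \ e1.erase u = e2.erase u := by
    ext z
    simp only [mem_sdiff, mem_erase, ← hun, mem_union]
    constructor
    · rintro ⟨⟨h1, h2⟩, h3⟩
      exact ⟨h1, h2.resolve_left fun h => h3 ⟨h1, h⟩⟩
    · rintro ⟨h1, h2⟩
      exact ⟨⟨h1, Or.inr h2⟩, fun h => h1 (hint z h.2 h2)⟩
  have hs2 : B.erase u \ e2.erase u = e1.erase u := by
    ext z
    simp only [mem_sdiff, mem_erase, ← hun, mem_union]
    constructor
    · rintro ⟨⟨h1, h2⟩, h3⟩
      exact ⟨h1, h2.resolve_right fun h => h3 ⟨h1, h⟩⟩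
    · rintro ⟨h1, h2⟩
      exact ⟨⟨h1, Or.inl h2⟩, fun h => h1 (hint z h2 h.2)⟩
  have huU : ∀ e e' : Finset V, e ∈ F → e' ∈ F → u ∈ e → u ∈ e' →
      B.erase u \ e.erase u = e'.erase u → u ∈ U F W (B.erase u) (e.erase u) := by
    intro e e' he he' hue hue' hs
    unfold U
    rw [mem_filter, mem_sdiff]
    refine ⟨⟨hBW huB', notMem_erase u B⟩, ?_, ?_, ?_⟩
    · rw [insert_erase hue]
      exact he
    · rw [hs, insert_erase hue']
      exact he'
    · rw [insert_erase huB']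
      exact hE'
  have hq := hq0 (B.erase u) (card_pos.mp (by omega))
  have hqq : q0 (B.erase u) ∈ e1.erase u ∨ q0 (B.erase u) ∈ e2.erase u := by
    have h1 := mem_erase.mp hq
    rw [← hun, mem_union] at h1
    rcases h1.2 with h2 | h2
    · rw [hun] at h1 h2
      exact Or.inl (mem_erase.mpr ⟨h1.1, h2⟩)
    · rw [hun] at h1 h2
      exact Or.inr (mem_erase.mpr ⟨h1.1, h2⟩)
  rcases hqq with h1 | h1
  · refine ⟨B.erase u, hQP, e1.erase u, ?_, u, huU e1 e2 m1.1 m2.1 hu1.1 hu1.2 hs1,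
      insert_erase huB'⟩
    rw [mem_filter, mem_powersetCard]
    exact ⟨⟨erase_subset_erase u m1.2, by rw [card_erase_of_mem hu1.1, c1]⟩, h1⟩
  · refine ⟨B.erase u, hQP, e2.erase u, ?_, u, huU e2 e1 m2.1 m1.1 hu1.2 hu1.1 hs2,
      insert_erase huB'⟩
    rw [mem_filter, mem_powersetCard]
    exact ⟨⟨erase_subset_erase u m2.2, by rw [card_erase_of_mem hu1.2, c2]⟩, h1⟩

theorem card_C3 (F : Finset (Finset V)) (hF : ∀ e ∈ F, e.card = 3) (W : Finset V)
    (q0 : Finset V → V) (hq0 : ∀ Q, Q.Nonempty → q0 Q ∈ Q) :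
    (C3 F W).card ≤ ∑ Q ∈ P0 F W, ∑ π ∈ (Q.powersetCard 2).filter (q0 Q ∈ ·), (U F W Q π).card := by
  have h1 : C3 F W ⊆ (P0 F W).biUnion fun Q => ((Q.powersetCard 2).filter (q0 Q ∈ ·)).biUnion
      fun π => (U F W Q π).image fun u => insert u Q := by
    intro B hB
    obtain ⟨Q, hQ, π, hπ, u, hu, h⟩ := C3_struct F hF W q0 hq0 B hB
    exact mem_biUnion.mpr ⟨Q, hQ, mem_biUnion.mpr ⟨π, hπ, mem_image.mpr ⟨u, hu, h⟩⟩⟩
  refine (card_le_card h1).trans (card_biUnion_le.trans (sum_le_sum fun Q _ => ?_))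
  exact card_biUnion_le.trans (sum_le_sum fun π _ => card_image_le)

theorem card_types (Q : Finset V) (hQ : Q.card = 4) (q : V) :
    ((Q.powersetCard 2).filter (q ∈ ·)).card ≤ 3 := by
  have h := card_super Q {q} 2
  simp only [singleton_subset_iff, card_singleton, hQ] at h
  exact h

theorem card_U (F : Finset (Finset V)) (hF : ∀ e ∈ F, e.card = 3) (W Q π : Finset V)
    (hQ : Q ∈ P0 F W) (hπ : π ∈ Q.powersetCard 2) :
    (U F W Q π).card.choose 2 ≤ ((M6 F W).filter (Q ⊆ ·)).card := by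
  unfold P0 at hQ
  rw [mem_filter, mem_powersetCard] at hQ
  obtain ⟨⟨hQW, hQ4⟩, hQE⟩ := hQ
  rw [mem_powersetCard] at hπ
  obtain ⟨hπQ, hπ2⟩ := hπ
  rw [← card_powersetCard]
  refine card_le_card_of_injOn (fun τ => Q ∪ τ) ?_ ?_
  · intro τ hτ
    rw [mem_coe, mem_powersetCard] at hτ
    obtain ⟨hτU, hτ2⟩ := hτ
    have hUW : U F W Q π ⊆ W \ Q := filter_subset _ _
    have hτW := hτU.trans hUW
    have hdis : Disjoint Q τ := by
      rw [disjoint_left]
      intro z hz hz'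
      exact (mem_sdiff.mp (hτW hz')).2 hz
    have hc6 : (Q ∪ τ).card = 6 := by rw [card_union_of_disjoint hdis, hQ4, hτ2]
    have hsub : Q ∪ τ ⊆ W := union_subset hQW (hτW.trans sdiff_subset)
    rw [mem_coe, mem_filter]
    refine ⟨?_, subset_union_left⟩
    unfold M6
    rw [mem_filter, mem_powersetCard]
    refine ⟨⟨hsub, hc6⟩, ?_⟩
    by_contra hcon
    have hS : ∀ A ⊆ Q ∪ τ, A.card = 4 → E F A ≠ 2 := by
      intro A hA hA4 hA2
      apply hcon
      refine ⟨A, ?_, hA⟩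
      unfold M4
      rw [mem_filter, mem_powersetCard]
      exact ⟨⟨hA.trans hsub, hA4⟩, hA2⟩
    obtain ⟨v, w, hvw, rfl⟩ := card_eq_two.mp hτ2
    obtain ⟨a, b, hab, rfl⟩ := card_eq_two.mp hπ2
    have hρ2 : (Q \ {a, b}).card = 2 := by rw [card_sdiff_of_subset hπQ, hQ4, hπ2]
    obtain ⟨c, d, hcd, hρ⟩ := card_eq_two.mp hρ2
    have ha : a ∈ Q := hπQ (by simp)
    have hb : b ∈ Q := hπQ (by simp)
    have hc : c ∈ Q ∧ c ≠ a ∧ c ≠ b := by
      have : c ∈ Q \ {a, b} := by rw [hρ]; simp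
      rw [mem_sdiff] at this
      exact ⟨this.1, fun h => this.2 (by simp [h]), fun h => this.2 (by simp [h])⟩
    have hd : d ∈ Q ∧ d ≠ a ∧ d ≠ b := by
      have : d ∈ Q \ {a, b} := by rw [hρ]; simp
      rw [mem_sdiff] at this
      exact ⟨this.1, fun h => this.2 (by simp [h]), fun h => this.2 (by simp [h])⟩
    have hQeq : Q = {a, b, c, d} := by
      rw [← sdiff_union_of_subset hπQ, hρ]
      ext z
      simp only [mem_union, mem_insert, mem_singleton]
      tauto
    have hv := mem_filter.mp (hτU (by simp : v ∈ ({v, w} : Finset V)))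
    have hw := mem_filter.mp (hτU (by simp : w ∈ ({v, w} : Finset V)))
    rw [hρ] at hv hw
    have hvQ := (mem_sdiff.mp hv.1).2
    have hwQ := (mem_sdiff.mp hw.1).2
    have e1 : ∀ z x y : V, insert z ({x, y} : Finset V) = {x, y, z} := by
      intro z x y
      ext t
      simp only [mem_insert, mem_singleton]
      tauto
    have e2 : ∀ z : V, insert z Q = {a, b, c, d, z} := by
      intro z
      rw [hQeq]
      ext t
      simp only [mem_insert, mem_singleton]
      tauto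
    rw [e1 v a b, e1 v c d, e2] at hv
    rw [e1 w a b, e1 w c d, e2] at hw
    have nq : ∀ z z' : V, z ∈ Q → z' ∉ Q → z ≠ z' := fun z z' h h' e => h' (e ▸ h)
    exact local_lemma2 F hF a b c d v w hab hc.2.1.symm hd.2.1.symm hc.2.2.symm hd.2.2.symm hcd
      (nq _ _ ha hvQ) (nq _ _ hb hvQ) (nq _ _ hc.1 hvQ) (nq _ _ hd.1 hvQ)
      (nq _ _ ha hwQ) (nq _ _ hb hwQ) (nq _ _ hc.1 hwQ) (nq _ _ hd.1 hwQ) hvw
      hv.2.1 hv.2.2.1 hw.2.1 hw.2.2.1 hv.2.2.2 hw.2.2.2 (Q ∪ {v, w})
      (mem_union_left _ ha) (mem_union_left _ hb) (mem_union_left _ hc.1) (mem_union_left _ hd.1)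
      (mem_union_right _ (by simp)) (mem_union_right _ (by simp)) hS
  · intro τ hτ τ' hτ' h
    rw [mem_coe, mem_powersetCard] at hτ hτ'
    have key : ∀ τ : Finset V, τ ⊆ U F W Q π → (Q ∪ τ) \ Q = τ := by
      intro τ hτ
      rw [union_sdiff_left, Finset.sdiff_eq_self_iff_disjoint, disjoint_left]
      intro z hz hz'
      exact (mem_sdiff.mp ((filter_subset _ _ : U F W Q π ⊆ W \ Q) (hτ hz))).2 hz'
    simp only at h
    rw [← key τ hτ.1, ← key τ' hτ'.1, h]

end sets

section gain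
variable {V : Type*} [DecidableEq V]

/-- the vertices whose link contains `q` -/
def A0 (F : Finset (Finset V)) (W Q : Finset V) (q : V) : Finset V :=
  (W \ Q).filter fun v => ∃ x ∈ Q.erase q, {q, x, v} ∈ F

/-- number of edges meeting the complement of `Q` in `τ` -/
def dd (F : Finset (Finset V)) (W Q τ : Finset V) : ℕ :=
  ((F.filter (· ⊆ W)).filter fun e => e \ Q = τ).card

theorem split_lower (F : Finset (Finset V)) (hF : ∀ e ∈ F, e.card = 3) (W Q : Finset V)
    (hQ : E F Q = 0) (h5 : ∀ v ∈ W \ Q, E F (insert v Q) ≠ 0) (hQW : Q ⊆ W) :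
    E F (W \ Q) + (W \ Q).card + ∑ τ ∈ (W \ Q).powersetCard 2, dd F W Q τ ≤ E F W := by
  set G := F.filter (· ⊆ W) with hG
  have h3 : E F (W \ Q) ≤ (G.filter fun e => (e \ Q).card = 3).card := by
    apply card_le_card
    intro e he
    rw [mem_filter] at he
    rw [mem_filter, hG, mem_filter]
    refine ⟨⟨he.1, he.2.trans sdiff_subset⟩, ?_⟩
    have : e \ Q = e := by
      rw [Finset.sdiff_eq_self_iff_disjoint, disjoint_left]
      intro z hz hz'
      exact (mem_sdiff.mp (he.2 hz)).2 hz'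
    rw [this, hF e he.1]
  have h1 : (W \ Q).card ≤ (G.filter fun e => (e \ Q).card = 1).card := by
    have hex : ∀ v, ∃ e : Finset V, v ∈ W \ Q → e ∈ F ∧ e ⊆ insert v Q := by
      intro v
      by_cases hv : v ∈ W \ Q
      · obtain ⟨e, he⟩ := card_pos.mp (Nat.pos_of_ne_zero (h5 v hv))
        exact ⟨e, fun _ => mem_filter.mp he⟩
      · exact ⟨∅, fun h => absurd h hv⟩
    choose f hf using hex
    have hfv : ∀ v ∈ W \ Q, f v \ Q = {v} := by
      intro v hv
      obtain ⟨hfF, hfs⟩ := hf v hv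
      have hvf : v ∈ f v := by
        by_contra hvf
        have h6 : f v ⊆ Q := by
          intro z hz
          rcases mem_insert.mp (hfs hz) with rfl | h7
          · exact absurd hz hvf
          · exact h7
        unfold E at hQ
        rw [card_eq_zero, filter_eq_empty_iff] at hQ
        exact hQ hfF h6
      ext z
      rw [mem_sdiff, mem_singleton]
      constructor
      · rintro ⟨hz, hzQ⟩
        rcases mem_insert.mp (hfs hz) with h7 | h7
        · exact h7
        · exact absurd h7 hzQ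
      · rintro rfl
        exact ⟨hvf, (mem_sdiff.mp hv).2⟩
    refine card_le_card_of_injOn f ?_ ?_
    · intro v hv
      rw [mem_coe] at hv
      obtain ⟨hfF, hfs⟩ := hf v hv
      rw [mem_coe, mem_filter, hG, mem_filter, hfv v hv, card_singleton]
      refine ⟨⟨hfF, hfs.trans ?_⟩, rfl⟩
      exact insert_subset (mem_sdiff.mp hv).1 hQW
    · intro v hv w hw h
      rw [mem_coe] at hv hw
      have h6 := hfv v hv
      rw [h, hfv w hw] at h6
      exact (singleton_injective h6).symm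
  have h2 : ∑ τ ∈ (W \ Q).powersetCard 2, dd F W Q τ ≤
      (G.filter fun e => (e \ Q).card = 2).card := by
    have h6 := card_eq_sum_card_fiberwise (s := G.filter fun e => (e \ Q).card = 2)
      (f := fun e => e \ Q) (t := (W \ Q).powersetCard 2) (by
      intro e he
      rw [mem_coe, mem_filter, hG, mem_filter] at he
      rw [mem_coe, mem_powersetCard]
      exact ⟨sdiff_subset_sdiff he.1.2 (le_refl Q), he.2⟩)
    rw [h6]
    refine sum_le_sum fun τ hτ => ?_
    unfold dd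
    apply card_le_card
    intro e he
    rw [mem_filter] at he
    rw [mem_filter, mem_filter]
    exact ⟨⟨he.1, by rw [he.2]; exact (mem_powersetCard.mp hτ).2⟩, he.2⟩
  have hd : ∀ i j : ℕ, i ≠ j → Disjoint (G.filter fun e => (e \ Q).card = i)
      (G.filter fun e => (e \ Q).card = j) := by
    intro i j hij
    rw [disjoint_left]
    intro e he he'
    exact hij ((mem_filter.mp he).2.symm.trans (mem_filter.mp he').2)
  have h7 : ((G.filter fun e => (e \ Q).card = 3) ∪ (G.filter fun e => (e \ Q).card = 1) ∪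
      (G.filter fun e => (e \ Q).card = 2)).card ≤ G.card := by
    apply card_le_card
    exact union_subset (union_subset (filter_subset _ _) (filter_subset _ _)) (filter_subset _ _)
  rw [card_union_of_disjoint, card_union_of_disjoint (hd 3 1 (by norm_num))] at h7
  · have h8 : E F W = G.card := rfl
    omega
  · rw [disjoint_union_left]
    exact ⟨hd 3 2 (by norm_num), hd 1 2 (by norm_num)⟩

theorem pair_lower (F : Finset (Finset V)) (hF : ∀ e ∈ F, e.card = 3) (W Q : Finset V)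
    (hQ : Q ∈ P0 F W) (q : V) (hq : q ∈ Q) (h5 : ∀ A ⊆ W, A.card = 5 → E F A ≠ 0)
    (τ : Finset V) (hτ : τ ∈ (W \ Q).powersetCard 2) (hb : Q ∪ τ ∉ B6 F W)
    (hs : (τ ∩ A0 F W Q q).card ≠ 1) : 2 ≤ dd F W Q τ := by
  unfold P0 at hQ
  rw [mem_filter, mem_powersetCard] at hQ
  obtain ⟨⟨hQW, hQ4⟩, hQE⟩ := hQ
  rw [mem_powersetCard] at hτ
  obtain ⟨hτW, hτ2⟩ := hτ
  have hdis : Disjoint Q τ := by
    rw [disjoint_left]
    intro z hz hz'
    exact (mem_sdiff.mp (hτW hz')).2 hz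
  have hc6 : (Q ∪ τ).card = 6 := by rw [card_union_of_disjoint hdis, hQ4, hτ2]
  have hsub : Q ∪ τ ⊆ W := union_subset hQW (hτW.trans sdiff_subset)
  obtain ⟨g4, g5⟩ := not_B6 F W (Q ∪ τ) (mem_powersetCard.mpr ⟨hsub, hc6⟩) hb
  obtain ⟨v, w, hvw, rfl⟩ := card_eq_two.mp hτ2
  have hR3 : (Q.erase q).card = 3 := by rw [card_erase_of_mem hq, hQ4]
  obtain ⟨b, c, d, hbc, hbd, hcd, hR⟩ := card_eq_three.mp hR3
  have hb' : b ≠ q ∧ b ∈ Q := by
    have : b ∈ Q.erase q := by rw [hR]; simp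
    exact mem_erase.mp this
  have hc' : c ≠ q ∧ c ∈ Q := by
    have : c ∈ Q.erase q := by rw [hR]; simp
    exact mem_erase.mp this
  have hd' : d ≠ q ∧ d ∈ Q := by
    have : d ∈ Q.erase q := by rw [hR]; simp
    exact mem_erase.mp this
  have hQeq : Q = {q, b, c, d} := by rw [← insert_erase hq, hR]
  have hv := mem_sdiff.mp (hτW (by simp : v ∈ ({v, w} : Finset V)))
  have hw := mem_sdiff.mp (hτW (by simp : w ∈ ({v, w} : Finset V)))
  have nq : ∀ z z' : V, z ∈ Q → z' ∉ Q → z ≠ z' := fun z z' h h' e => h' (e ▸ h)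
  have key := local_lemma F hF q b c d v w hb'.1.symm hc'.1.symm hd'.1.symm hbc hbd hcd
    (nq _ _ hq hv.2) (nq _ _ hb'.2 hv.2) (nq _ _ hc'.2 hv.2) (nq _ _ hd'.2 hv.2)
    (nq _ _ hq hw.2) (nq _ _ hb'.2 hw.2) (nq _ _ hc'.2 hw.2) (nq _ _ hd'.2 hw.2) hvw
    (by rw [← hQeq]; exact hQE) (Q ∪ {v, w})
    (mem_union_left _ hq) (mem_union_left _ hb'.2) (mem_union_left _ hc'.2)
    (mem_union_left _ hd'.2) (mem_union_right _ (by simp)) (mem_union_right _ (by simp)) g4
    (fun A hA hA5 => ⟨h5 A (hA.trans hsub) hA5, g5 A hA hA5⟩)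
  rcases key with key | key
  · -- at least two edges
    refine key.trans ?_
    have hsum : ind F {q, v, w} + ind F {b, v, w} + ind F {c, v, w} + ind F {d, v, w} =
        (Q.filter fun x => {x, v, w} ∈ F).card := by
      have i1 : ∀ x : V, ind F {x, v, w} = if ({x, v, w} : Finset V) ∈ F then 1 else 0 := by
        intro x
        unfold ind
        by_cases h : ({x, v, w} : Finset V) ∈ F <;> simp [h]
      rw [card_filter]
      simp only [i1]
      rw [hQeq, sum_insert (by simp [hb'.1.symm, hc'.1.symm, hd'.1.symm]),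
        sum_insert (by simp [hbc, hbd]), sum_insert (by simp [hcd]), sum_singleton]
      ring
    rw [hsum]
    unfold dd
    refine card_le_card_of_injOn (fun x => {x, v, w}) ?_ ?_
    · intro x hx
      rw [mem_coe, mem_filter] at hx
      rw [mem_coe, mem_filter, mem_filter]
      refine ⟨⟨hx.2, ?_⟩, ?_⟩
      · intro z hz
        simp only [mem_insert, mem_singleton] at hz
        rcases hz with rfl | rfl | rfl
        · exact hQW hx.1
        · exact hv.1
        · exact hw.1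
      · ext z
        simp only [mem_sdiff, mem_insert, mem_singleton]
        constructor
        · rintro ⟨rfl | h, h'⟩
          · exact absurd hx.1 h'
          · exact h
        · intro h
          refine ⟨Or.inr h, ?_⟩
          rcases h with rfl | rfl
          · exact hv.2
          · exact hw.2
    · intro x hx y hy h
      rw [mem_coe, mem_filter] at hx hy
      have h6 : x ∈ ({y, v, w} : Finset V) := by
        have : x ∈ ({x, v, w} : Finset V) := by simp
        simp only at h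
        rw [h] at this
        exact this
      simp only [mem_insert, mem_singleton] at h6
      rcases h6 with h6 | h6 | h6
      · exact h6
      · exact absurd h6 (nq _ _ hx.1 hv.2)
      · exact absurd h6 (nq _ _ hx.1 hw.2)
  · -- the pair is split
    exfalso
    apply hs
    have mA : ∀ z : V, z ∈ W \ Q → (z ∈ A0 F W Q q ↔ ∃ x ∈ ({b, c, d} : Finset V), {q, x, z} ∈ F) := by
      intro z hz
      unfold A0
      rw [mem_filter, hR]
      exact ⟨fun h => h.2, fun h => ⟨hz, h⟩⟩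
    have mv := mA v (mem_sdiff.mpr hv)
    have mw := mA w (mem_sdiff.mpr hw)
    rw [← mv, ← mw] at key
    by_cases hvA : v ∈ A0 F W Q q
    · have hwA := key.mp hvA
      have : ({v, w} : Finset V) ∩ A0 F W Q q = {v} := by
        ext z
        simp only [mem_inter, mem_insert, mem_singleton]
        constructor
        · rintro ⟨rfl | rfl, h⟩
          · rfl
          · exact absurd h hwA
        · rintro rfl
          exact ⟨Or.inl rfl, hvA⟩
      rw [this, card_singleton]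
    · have hwA : w ∈ A0 F W Q q := by
        by_contra h
        exact hvA (key.mpr h)
      have : ({v, w} : Finset V) ∩ A0 F W Q q = {w} := by
        ext z
        simp only [mem_inter, mem_insert, mem_singleton]
        constructor
        · rintro ⟨rfl | rfl, h⟩
          · exact absurd h hvA
          · rfl
        · rintro rfl
          exact ⟨Or.inr rfl, hwA⟩
      rw [this, card_singleton]

theorem card_split (X A : Finset V) (hA : A ⊆ X) :
    4 * ((X.powersetCard 2).filter fun τ => (τ ∩ A).card = 1).card ≤ X.card ^ 2 := by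
  have h1 : ((X.powersetCard 2).filter fun τ => (τ ∩ A).card = 1) ⊆
      (A ×ˢ (X \ A)).image fun z => {z.1, z.2} := by
    intro τ hτ
    rw [mem_filter, mem_powersetCard] at hτ
    obtain ⟨⟨hτX, hτ2⟩, hτA⟩ := hτ
    obtain ⟨v, w, hvw, rfl⟩ := card_eq_two.mp hτ2
    obtain ⟨z, hz⟩ := card_eq_one.mp hτA
    have hzm : z ∈ ({v, w} : Finset V) ∩ A := by rw [hz]; simp
    have huniq : ∀ y, y ∈ ({v, w} : Finset V) → y ∈ A → y = z := by
      intro y h1 h2
      have : y ∈ ({v, w} : Finset V) ∩ A := mem_inter.mpr ⟨h1, h2⟩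
      rw [hz] at this
      simpa using this
    rw [mem_inter, mem_insert, mem_singleton] at hzm
    rw [mem_image]
    rcases hzm.1 with rfl | rfl
    · refine ⟨(z, w), ?_, rfl⟩
      rw [mem_product, mem_sdiff]
      exact ⟨hzm.2, hτX (by simp), fun h => hvw (huniq w (by simp) h).symm⟩
    · refine ⟨(z, v), ?_, pair_comm z v⟩
      rw [mem_product, mem_sdiff]
      exact ⟨hzm.2, hτX (by simp), fun h => hvw (huniq v (by simp) h)⟩
  have h2 := (card_le_card h1).trans card_image_le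
  rw [card_product, card_sdiff_of_subset hA] at h2
  have h3 : A.card ≤ X.card := card_le_card hA
  obtain ⟨k, hk⟩ := Nat.exists_eq_add_of_le h3
  rw [hk, Nat.add_sub_cancel_left] at h2
  rw [hk]
  nlinarith [sq_nonneg ((A.card : ℤ) - k), Nat.mul_le_mul_left 4 h2, Nat.cast_nonneg (α := ℤ) k,
    mul_self_nonneg ((A.card : ℤ) - k), four_mul_le_sq_add A.card k]

end gain

section step
variable {V : Type*} [DecidableEq V]

theorem gain (F : Finset (Finset V)) (hF : ∀ e ∈ F, e.card = 3) (W Q : Finset V)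
    (hQ : Q ∈ P0 F W) (q : V) (hq : q ∈ Q) (h5 : ∀ A ⊆ W, A.card = 5 → E F A ≠ 0) :
    2 * E F (W \ Q) + (W \ Q).card ^ 2 ≤
      2 * E F W + 4 * ((B6 F W).filter (Q ⊆ ·)).card := by
  have hQ' := hQ
  unfold P0 at hQ'
  rw [mem_filter, mem_powersetCard] at hQ'
  obtain ⟨⟨hQW, hQ4⟩, hQE⟩ := hQ'
  have h1 := split_lower F hF W Q hQE (fun v hv => h5 _
    (insert_subset (mem_sdiff.mp hv).1 hQW) (by
      rw [card_insert_of_notMem (mem_sdiff.mp hv).2, hQ4])) hQW
  have h2 : 2 * ((W \ Q).powersetCard 2).card ≤ ∑ τ ∈ (W \ Q).powersetCard 2, dd F W Q τ +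
      2 * (((W \ Q).powersetCard 2).filter fun τ => Q ∪ τ ∈ B6 F W).card +
      2 * (((W \ Q).powersetCard 2).filter fun τ => (τ ∩ A0 F W Q q).card = 1).card := by
    rw [card_filter, card_filter, mul_sum, mul_sum, ← sum_add_distrib, ← sum_add_distrib,
      card_eq_sum_ones, mul_sum]
    refine sum_le_sum fun τ hτ => ?_
    by_cases hb : Q ∪ τ ∈ B6 F W
    · rw [if_pos hb]
      omega
    · by_cases hs : (τ ∩ A0 F W Q q).card = 1
      · rw [if_pos hs]
        omega
      · rw [if_neg hb, if_neg hs]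
        have := pair_lower F hF W Q hQ q hq h5 τ hτ hb hs
        omega
  have h3 : (((W \ Q).powersetCard 2).filter fun τ => Q ∪ τ ∈ B6 F W).card ≤
      ((B6 F W).filter (Q ⊆ ·)).card := by
    refine card_le_card_of_injOn (fun τ => Q ∪ τ) ?_ ?_
    · intro τ hτ
      rw [mem_coe, mem_filter] at hτ
      rw [mem_coe, mem_filter]
      exact ⟨hτ.2, subset_union_left⟩
    · intro τ hτ τ' hτ' h
      rw [mem_coe, mem_filter, mem_powersetCard] at hτ hτ'
      have key : ∀ τ : Finset V, τ ⊆ W \ Q → (Q ∪ τ) \ Q = τ := by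
        intro τ hτ
        rw [union_sdiff_left, Finset.sdiff_eq_self_iff_disjoint, disjoint_left]
        intro z hz hz'
        exact (mem_sdiff.mp (hτ hz)).2 hz'
      simp only at h
      rw [← key τ hτ.1.1, ← key τ' hτ'.1.1, h]
  have h4 := card_split (W \ Q) (A0 F W Q q) (filter_subset _ _)
  rw [card_powersetCard] at h2
  have h6 : 2 * (W \ Q).card.choose 2 + (W \ Q).card = (W \ Q).card ^ 2 := by
    rw [Nat.choose_two_right]
    have h7 : 2 ∣ (W \ Q).card * ((W \ Q).card - 1) := (Nat.even_mul_pred_self _).two_dvd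
    rw [Nat.mul_div_cancel' h7]
    rcases Nat.eq_zero_or_pos (W \ Q).card with h8 | h8
    · rw [h8]
      rfl
    · obtain ⟨m, hm⟩ := Nat.exists_eq_succ_of_ne_zero h8.ne'
      rw [hm, Nat.succ_sub_one, Nat.succ_eq_add_one]
      ring
  generalize (W \ Q).card ^ 2 = N2 at *
  omega

theorem quad (x m lam : ℝ) (hlam : 0 < lam) (hx : 0 ≤ x) (hm : 0 ≤ m) (h : x * (x - 1) ≤ 2 * m) :
    x ≤ 1 + lam + 2 * m / lam := by
  have h0 : 0 ≤ 2 * m / lam := by positivity
  rcases le_or_gt x (1 + lam) with h1 | h1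
  · linarith
  · have h2 : x ≤ 2 * m / lam := by
      rw [le_div_iff₀ hlam]
      nlinarith
    linarith

theorem arith (j n δ M p E : ℝ) (hj : 312 < j) (hjn : j ≤ n) (hδ : 0 ≤ δ) (hM : 0 ≤ M)
    (hδ3 : 32768 * M * n ^ 2 ≤ δ ^ 3) (hE0 : 0 ≤ E) (hE : E < j ^ 3 / 24 - 13 * j ^ 2 - δ * j)
    (hp : j * (j - 1) * (j - 2) * (j - 3) / 24 ≤ p + (j - 3) * E) :
    0 < p ∧ 15 / 2 * M * j ^ 2 + 15 * j * (3 * p * (1 + (δ + j) / (45 * j)) +
      45 * M * j ^ 2 / ((δ + j) / (45 * j))) ≤ (45 * j + 2 * (δ + j)) * p := by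
  have hj0 : 0 < j := by linarith
  set Δ := δ + j with hΔ
  have hΔ0 : 0 < Δ := by linarith
  -- lower bound for p
  have hp1 : (j - 3) * (j * Δ) ≤ p := by
    have h1 : (j - 3) * E ≤ (j - 3) * (j ^ 3 / 24 - 13 * j ^ 2 - δ * j) :=
      mul_le_mul_of_nonneg_left hE.le (by linarith)
    have h2 : j * (j - 1) * (j - 2) * (j - 3) / 24 - (j - 3) * (j ^ 3 / 24 - 13 * j ^ 2 - δ * j) =
        (j - 3) * (j * Δ) + (j - 3) * j * (12 * j - j / 8 + 1 / 12) := by
      rw [hΔ]
      ring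
    have h3 : 0 ≤ (j - 3) * j * (12 * j - j / 8 + 1 / 12) := by
      apply mul_nonneg (mul_nonneg (by linarith) hj0.le)
      linarith
    linarith
  have hp2 : 309 / 312 * (j ^ 2 * Δ) ≤ p := by
    refine le_trans ?_ hp1
    have h1 : 309 / 312 * (j ^ 2 * Δ) = (309 / 312 * j) * (j * Δ) := by ring
    rw [h1]
    apply mul_le_mul_of_nonneg_right _ (by positivity)
    linarith
  have hp0 : 0 < p := lt_of_lt_of_le (by positivity) hp2
  refine ⟨hp0, ?_⟩
  -- Δ ≤ j ^ 2 / 24
  have hΔj : Δ ≤ j ^ 2 / 24 := by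
    by_contra hcon
    push Not at hcon
    have h1 : j * (j ^ 2 / 24) < j * Δ := mul_lt_mul_of_pos_left hcon hj0
    rw [hΔ] at h1
    nlinarith
  have hΔ3 : 32768 * (M * j ^ 2) ≤ Δ ^ 3 := by
    have h1 : δ ^ 3 ≤ Δ ^ 3 := pow_le_pow_left₀ hδ (by linarith) 3
    have h2 : j ^ 2 ≤ n ^ 2 := pow_le_pow_left₀ hj0.le hjn 2
    have h3 : M * j ^ 2 ≤ M * n ^ 2 := mul_le_mul_of_nonneg_left h2 hM
    linarith
  have key : 15 / 2 * M * j ^ 2 + 30375 * M * j ^ 4 / Δ ≤ Δ * p := by
    have h1 : 15 / 2 * M * Δ + 30375 * (M * j ^ 2) ≤ 309 / 312 * Δ ^ 3 := by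
      have h2 : M * Δ ≤ M * (j ^ 2 / 24) := mul_le_mul_of_nonneg_left hΔj hM
      have h3 : 0 ≤ M * j ^ 2 := by positivity
      linarith
    have h4 : 15 / 2 * M * j ^ 2 + 30375 * M * j ^ 4 / Δ =
        j ^ 2 * (15 / 2 * M * Δ + 30375 * (M * j ^ 2)) / Δ := by
      field_simp
    rw [h4, div_le_iff₀ hΔ0]
    have h5 : j ^ 2 * (15 / 2 * M * Δ + 30375 * (M * j ^ 2)) ≤ j ^ 2 * (309 / 312 * Δ ^ 3) :=
      mul_le_mul_of_nonneg_left h1 (by positivity)
    refine h5.trans ?_
    have h6 : j ^ 2 * (309 / 312 * Δ ^ 3) = Δ ^ 2 * (309 / 312 * (j ^ 2 * Δ)) := by ring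
    have h7 : Δ * p * Δ = Δ ^ 2 * p := by ring
    rw [h6, h7]
    exact mul_le_mul_of_nonneg_left hp2 (by positivity)
  have e1 : 15 * j * (3 * p * (1 + Δ / (45 * j)) + 45 * M * j ^ 2 / (Δ / (45 * j))) =
      45 * j * p + Δ * p + 30375 * M * j ^ 4 / Δ := by
    field_simp
    ring
  rw [e1]
  linarith

end step

section main
variable {V : Type*} [DecidableEq V]

theorem M4_mono (F : Finset (Finset V)) {W W0 : Finset V} (h : W ⊆ W0) : M4 F W ⊆ M4 F W0 := by
  unfold M4
  exact filter_subset_filter _ (powersetCard_mono h)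

theorem choose2_le (m : ℕ) : ((m - 4).choose 2 : ℝ) ≤ (m : ℝ) ^ 2 / 2 := by
  have h1 : (m - 4).choose 2 ≤ m.choose 2 := Nat.choose_le_choose 2 (Nat.sub_le m 4)
  have h2 : (m.choose 2 : ℝ) = (m : ℝ) * (m - 1) / 2 := by
    rw [Nat.cast_choose_two]
  have h3 : ((m - 4).choose 2 : ℝ) ≤ (m.choose 2 : ℝ) := by exact_mod_cast h1
  rw [h2] at h3
  have h4 : (0 : ℝ) ≤ m := Nat.cast_nonneg m
  nlinarith

theorem choose4_eq (m : ℕ) (hm : 3 ≤ m) :
    (m.choose 4 : ℝ) = (m : ℝ) * (m - 1) * (m - 2) * (m - 3) / 24 := by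
  obtain ⟨l, rfl⟩ := Nat.exists_eq_add_of_le hm
  have h1 := Nat.descFactorial_eq_factorial_mul_choose (3 + l) 4
  have h2 : (3 + l).descFactorial 4 = (3 + l) * (2 + l) * (1 + l) * l := by
    simp only [Nat.descFactorial_succ, Nat.descFactorial_zero]
    have e1 : 3 + l - 3 = l := by omega
    have e2 : 3 + l - 2 = 1 + l := by omega
    have e3 : 3 + l - 1 = 2 + l := by omega
    rw [e1, e2, e3, Nat.sub_zero]
    ring
  rw [h2] at h1
  have h3 : ((3 + l) * (2 + l) * (1 + l) * l : ℝ) = 24 * ((3 + l).choose 4 : ℝ) := by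
    have h4 : (4 : ℕ).factorial = 24 := rfl
    rw [h4] at h1
    exact_mod_cast h1
  push_cast
  linarith

/-- the induction -/
theorem main_ind (F : Finset (Finset V)) (hF : ∀ e ∈ F, e.card = 3) (W0 : Finset V)
    (h5 : ∀ A ⊆ W0, A.card = 5 → E F A ≠ 0) (δ : ℝ) (hδ : 0 ≤ δ)
    (hδ3 : 32768 * ((M4 F W0).card : ℝ) * (W0.card : ℝ) ^ 2 ≤ δ ^ 3) :
    ∀ (t : ℕ) (W : Finset V), W.card = t → W ⊆ W0 →
      (W.card : ℝ) ^ 3 / 24 - 13 * (W.card : ℝ) ^ 2 - δ * W.card ≤ E F W := by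
  intro t
  induction t using Nat.strong_induction_on with
  | _ t ih =>
  intro W hWt hWW
  by_contra hcon
  push Not at hcon
  set j : ℝ := (W.card : ℝ) with hj
  set M : ℝ := ((M4 F W0).card : ℝ) with hM
  have hj0 : 0 ≤ j := Nat.cast_nonneg _
  have hM0 : 0 ≤ M := Nat.cast_nonneg _
  have hE0 : (0 : ℝ) ≤ E F W := Nat.cast_nonneg _
  have hj312 : 312 < j := by
    by_contra hle
    push Not at hle
    have h1 : j ^ 3 ≤ 312 * j ^ 2 := by nlinarith [sq_nonneg j]
    have h2 : 0 ≤ δ * j := mul_nonneg hδ hj0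
    linarith
  have hjn : j ≤ (W0.card : ℝ) := by
    rw [hj]
    exact_mod_cast card_le_card hWW
  have hW312 : 312 < W.card := by
    rw [hj] at hj312
    exact_mod_cast hj312
  set p : ℝ := ((P0 F W).card : ℝ) with hp
  have h51 : ∀ A ⊆ W, A.card = 5 → E F A ≠ 0 := fun A hA => h5 A (hA.trans hWW)
  have hpE : j * (j - 1) * (j - 2) * (j - 3) / 24 ≤ p + (j - 3) * E F W := by
    have h1 := edges_four F hF W
    have h2 : (W.card.choose 4 : ℝ) ≤ p + ((W.card - 3 : ℕ) : ℝ) * E F W := by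
      rw [hp]
      unfold P0
      exact_mod_cast h1
    rw [choose4_eq _ (by omega), Nat.cast_sub (by omega)] at h2
    rw [hj]
    push_cast at h2 ⊢
    exact h2
  obtain ⟨hp0, hkey⟩ := arith j W0.card δ M p (E F W) hj312 hjn hδ hM0 hδ3 hE0 hcon hpE
  set lam : ℝ := (δ + j) / (45 * j) with hlam
  have hlam0 : 0 < lam := by
    rw [hlam]
    apply div_pos <;> linarith
  -- the six sets with a bad four set
  have hM6 : ((M6 F W).card : ℝ) ≤ M * j ^ 2 / 2 := by
    have h1 := card_M6 F W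
    have h2 : ((M6 F W).card : ℝ) ≤ ((M4 F W).card : ℝ) * ((W.card - 4).choose 2 : ℝ) := by
      exact_mod_cast h1
    have h3 : ((M4 F W).card : ℝ) ≤ M := by
      rw [hM]
      exact_mod_cast card_le_card (M4_mono F hWW)
    have h4 := choose2_le W.card
    have h5' : ((M4 F W).card : ℝ) * ((W.card - 4).choose 2 : ℝ) ≤ M * (j ^ 2 / 2) :=
      mul_le_mul h3 h4 (Nat.cast_nonneg _) hM0
    linarith
  have hP4 : ∀ Q ∈ P0 F W, Q.card = 4 := fun Q hQ =>
    (mem_powersetCard.mp (mem_filter.mp hQ).1).2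
  have hs6 : ∑ Q ∈ P0 F W, (((M6 F W).filter (Q ⊆ ·)).card : ℝ) ≤ 15 * (M6 F W).card := by
    have h1 := double_count (P0 F W) (M6 F W) hP4
      (fun S hS => (mem_powersetCard.mp (mem_filter.mp hS).1).2)
    exact_mod_cast h1
  have hsb : ∑ Q ∈ P0 F W, (((B6 F W).filter (Q ⊆ ·)).card : ℝ) ≤ 15 * (B6 F W).card := by
    have h1 := double_count (P0 F W) (B6 F W) hP4
      (fun S hS => (mem_powersetCard.mp (mem_filter.mp hS).1).2)
    exact_mod_cast h1
  -- a choice of a point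
  obtain ⟨q0, hq0⟩ : ∃ q0 : Finset V → V, ∀ Q : Finset V, Q.Nonempty → q0 Q ∈ Q := by
    have hne : Nonempty V := by
      obtain ⟨v, -⟩ := card_pos.mp (by omega : 0 < W.card)
      exact ⟨v⟩
    have hex : ∀ Q : Finset V, ∃ v : V, Q.Nonempty → v ∈ Q := by
      intro Q
      by_cases h : Q.Nonempty
      · obtain ⟨v, hv⟩ := h
        exact ⟨v, fun _ => hv⟩
      · exact ⟨Classical.arbitrary V, fun h' => absurd h' h⟩
    choose q0 hq0 using hex
    exact ⟨q0, hq0⟩
  -- the five sets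
  have hC3 : ((C3 F W).card : ℝ) ≤ 3 * p * (1 + lam) + 45 * M * j ^ 2 / lam := by
    have h1 := card_C3 F hF W q0 hq0
    have h2 : ((C3 F W).card : ℝ) ≤
        ∑ Q ∈ P0 F W, ∑ π ∈ (Q.powersetCard 2).filter (q0 Q ∈ ·), ((U F W Q π).card : ℝ) := by
      exact_mod_cast h1
    have h3 : ∀ Q ∈ P0 F W, ∑ π ∈ (Q.powersetCard 2).filter (q0 Q ∈ ·), ((U F W Q π).card : ℝ) ≤
        3 * (1 + lam + 2 * (((M6 F W).filter (Q ⊆ ·)).card : ℝ) / lam) := by
      intro Q hQ
      have h4 : ∀ π ∈ (Q.powersetCard 2).filter (q0 Q ∈ ·), ((U F W Q π).card : ℝ) ≤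
          1 + lam + 2 * (((M6 F W).filter (Q ⊆ ·)).card : ℝ) / lam := by
        intro π hπ
        refine quad _ _ lam hlam0 (Nat.cast_nonneg _) (Nat.cast_nonneg _) ?_
        have h6 := card_U F hF W Q π hQ (mem_filter.mp hπ).1
        have h7 : (((U F W Q π).card.choose 2 : ℕ) : ℝ) ≤
            (((M6 F W).filter (Q ⊆ ·)).card : ℝ) := by exact_mod_cast h6
        rw [Nat.cast_choose_two] at h7
        linarith
      have h8 := sum_le_card_nsmul _ _ _ h4
      refine h8.trans ?_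
      rw [nsmul_eq_mul]
      apply mul_le_mul_of_nonneg_right
      · exact_mod_cast card_types Q (hP4 Q hQ) (q0 Q)
      · have : (0 : ℝ) ≤ 2 * (((M6 F W).filter (Q ⊆ ·)).card : ℝ) / lam := by positivity
        linarith
    have h9 := h2.trans (sum_le_sum h3)
    have h10 : ∑ Q ∈ P0 F W, 3 * (1 + lam + 2 * (((M6 F W).filter (Q ⊆ ·)).card : ℝ) / lam) =
        3 * p * (1 + lam) + 6 / lam * ∑ Q ∈ P0 F W, (((M6 F W).filter (Q ⊆ ·)).card : ℝ) := by
      rw [← mul_sum, sum_add_distrib, sum_const, nsmul_eq_mul, mul_sum, ← hp]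
      have : ∀ Q ∈ P0 F W, 2 * (((M6 F W).filter (Q ⊆ ·)).card : ℝ) / lam =
          (1 / 3) * (6 / lam * (((M6 F W).filter (Q ⊆ ·)).card : ℝ)) := by
        intro Q _
        ring
      rw [sum_congr rfl this, ← mul_sum]
      ring
    rw [h10] at h9
    have h11 : 6 / lam * ∑ Q ∈ P0 F W, (((M6 F W).filter (Q ⊆ ·)).card : ℝ) ≤
        6 / lam * (15 * (M * j ^ 2 / 2)) := by
      apply mul_le_mul_of_nonneg_left _ (by positivity)
      linarith
    have h12 : 6 / lam * (15 * (M * j ^ 2 / 2)) = 45 * M * j ^ 2 / lam := by ring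
    linarith
  have hB6 : ((B6 F W).card : ℝ) ≤ M * j ^ 2 / 2 + j * (3 * p * (1 + lam) + 45 * M * j ^ 2 / lam) := by
    have h1 := card_B6 F W
    have h2 : ((B6 F W).card : ℝ) ≤ ((M6 F W).card : ℝ) + ((C3 F W).card : ℝ) * ((W.card - 5 : ℕ) : ℝ) := by
      exact_mod_cast h1
    have h3 : ((W.card - 5 : ℕ) : ℝ) ≤ j := by
      rw [hj]
      exact_mod_cast Nat.sub_le _ _
    have h4 : ((C3 F W).card : ℝ) * ((W.card - 5 : ℕ) : ℝ) ≤
        (3 * p * (1 + lam) + 45 * M * j ^ 2 / lam) * j :=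
      mul_le_mul hC3 h3 (Nat.cast_nonneg _) (le_trans (Nat.cast_nonneg _) hC3)
    linarith
  -- a good independent set
  obtain ⟨Q, hQ, hbad⟩ : ∃ Q ∈ P0 F W, (((B6 F W).filter (Q ⊆ ·)).card : ℝ) ≤
      45 * j + 2 * (δ + j) := by
    apply exists_le_of_sum_le
    · rw [← card_pos]
      rw [hp] at hp0
      exact_mod_cast hp0
    · rw [sum_const, nsmul_eq_mul]
      refine hsb.trans ?_
      have h1 : 15 * ((B6 F W).card : ℝ) ≤ 15 / 2 * M * j ^ 2 +
          15 * j * (3 * p * (1 + lam) + 45 * M * j ^ 2 / lam) := by linarith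
      refine h1.trans (hkey.trans (le_of_eq ?_))
      rw [← hp]
      ring
  have hQ4 := hP4 Q hQ
  have hQW : Q ⊆ W := (mem_powersetCard.mp (mem_filter.mp hQ).1).1
  obtain ⟨q, hq⟩ := card_pos.mp (by omega : 0 < Q.card)
  have hgain := gain F hF W Q hQ q hq h51
  have hcard : (W \ Q).card = W.card - 4 := by rw [card_sdiff_of_subset hQW, hQ4]
  have hcardR : (((W \ Q).card : ℕ) : ℝ) = j - 4 := by
    rw [hcard, Nat.cast_sub (by omega), hj]
    norm_num
  have hIH := ih (W \ Q).card (by omega) (W \ Q) rfl (sdiff_subset.trans hWW)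
  rw [hcardR] at hIH
  have hgR : 2 * (E F (W \ Q) : ℝ) + (j - 4) ^ 2 ≤
      2 * (E F W : ℝ) + 4 * (((B6 F W).filter (Q ⊆ ·)).card : ℝ) := by
    rw [← hcardR]
    exact_mod_cast hgain
  nlinarith

theorem main_bound (F : Finset (Finset V)) (hF : ∀ e ∈ F, e.card = 3) (W : Finset V)
    (h5 : ∀ A ⊆ W, A.card = 5 → E F A ≠ 0) :
    (W.card : ℝ) ^ 3 / 24 - 13 * (W.card : ℝ) ^ 2 -
      32 * (((M4 F W).card : ℝ) * (W.card : ℝ) ^ 5) ^ (1 / 3 : ℝ) ≤ E F W := by
  rcases Nat.eq_zero_or_pos W.card with h0 | h0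
  · rw [h0]
    norm_num
  · have hn : (0 : ℝ) < W.card := by exact_mod_cast h0
    set X : ℝ := ((M4 F W).card : ℝ) * (W.card : ℝ) ^ 5 with hX
    have hX0 : 0 ≤ X := by positivity
    have hr0 : 0 ≤ X ^ (1 / 3 : ℝ) := Real.rpow_nonneg hX0 _
    have hr3 : (X ^ (1 / 3 : ℝ)) ^ 3 = X := by
      rw [← Real.rpow_natCast, ← Real.rpow_mul hX0]
      norm_num
    have h1 := main_ind F hF W h5 (32 * X ^ (1 / 3 : ℝ) / W.card) (by positivity) (by
      rw [div_pow, mul_pow, hr3, hX, le_div_iff₀ (by positivity)]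
      apply le_of_eq
      ring) W.card W rfl subset_rfl
    have h2 : 32 * X ^ (1 / 3 : ℝ) / W.card * W.card = 32 * X ^ (1 / 3 : ℝ) := by
      field_simp
    rw [h2] at h1
    exact h1

end main

section upper

/-- the two complete triple systems -/
def two (n : ℕ) (A : Finset (Fin n)) : Finset (Finset (Fin n)) :=
  A.powersetCard 3 ∪ (univ \ A).powersetCard 3

theorem two_card3 (n : ℕ) (A : Finset (Fin n)) : ∀ e ∈ two n A, e.card = 3 := by
  intro e he
  rcases mem_union.mp he with h | h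
  · exact (mem_powersetCard.mp h).2
  · exact (mem_powersetCard.mp h).2

theorem two_five (n : ℕ) (A : Finset (Fin n)) (S : Finset (Fin n)) (hS : S.card = 5) :
    ∃ e ∈ two n A, e ⊆ S := by
  have h1 : (S ∩ A).card + (S \ A).card = 5 := by rw [card_inter_add_card_sdiff, hS]
  rcases Nat.lt_or_ge (S ∩ A).card 3 with h2 | h2
  · obtain ⟨e, he, hc⟩ := exists_subset_card_eq (s := S \ A) (n := 3) (by omega)
    refine ⟨e, mem_union_right _ (mem_powersetCard.mpr ⟨?_, hc⟩), he.trans sdiff_subset⟩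
    exact he.trans (sdiff_subset_sdiff (subset_univ S) (le_refl A))
  · obtain ⟨e, he, hc⟩ := exists_subset_card_eq (s := S ∩ A) (n := 3) (by omega)
    exact ⟨e, mem_union_left _ (mem_powersetCard.mpr ⟨he.trans inter_subset_right, hc⟩),
      he.trans inter_subset_left⟩

theorem two_filter (n : ℕ) (A : Finset (Fin n)) (S : Finset (Fin n)) :
    ((two n A).filter (· ⊆ S)).card = (S ∩ A).card.choose 3 + (S \ A).card.choose 3 := by
  have h1 : (two n A).filter (· ⊆ S) = (S ∩ A).powersetCard 3 ∪ (S \ A).powersetCard 3 := by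
    ext e
    unfold two
    simp only [mem_filter, mem_union, mem_powersetCard, subset_inter_iff]
    constructor
    · rintro ⟨⟨h, hc⟩ | ⟨h, hc⟩, hS⟩
      · exact Or.inl ⟨⟨hS, h⟩, hc⟩
      · refine Or.inr ⟨?_, hc⟩
        intro z hz
        exact mem_sdiff.mpr ⟨hS hz, (mem_sdiff.mp (h hz)).2⟩
    · rintro (⟨⟨hS, h⟩, hc⟩ | ⟨h, hc⟩)
      · exact ⟨Or.inl ⟨h, hc⟩, hS⟩
      · exact ⟨Or.inr ⟨h.trans (sdiff_subset_sdiff (subset_univ S) (le_refl A)), hc⟩,
          h.trans sdiff_subset⟩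
  rw [h1, card_union_of_disjoint, card_powersetCard, card_powersetCard]
  rw [disjoint_left]
  intro e he he'
  rw [mem_powersetCard] at he he'
  obtain ⟨z, hz⟩ := card_pos.mp (by omega : 0 < e.card)
  exact (mem_sdiff.mp (he'.1 hz)).2 (mem_inter.mp (he.1 hz)).2

theorem two_four (n : ℕ) (A : Finset (Fin n)) (S : Finset (Fin n)) (hS : S.card = 4) :
    ((two n A).filter (· ⊆ S)).card ≠ 2 := by
  have h1 : (S ∩ A).card + (S \ A).card = 4 := by rw [card_inter_add_card_sdiff, hS]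
  rw [two_filter]
  obtain ⟨b, hb⟩ : ∃ b, b = (S \ A).card := ⟨_, rfl⟩
  obtain ⟨a, ha⟩ : ∃ a, a = (S ∩ A).card := ⟨_, rfl⟩
  rw [← ha, ← hb] at h1 ⊢
  have h2 : a ≤ 4 := by omega
  have h3 : b = 4 - a := by omega
  subst h3
  revert h2
  clear h1 ha hb
  revert a
  decide

theorem choose3_le (m : ℕ) : (m.choose 3 : ℝ) ≤ (m : ℝ) ^ 3 / 6 := by
  have h1 := Nat.choose_le_pow_div (α := ℝ) 3 m
  have h2 : ((3 : ℕ).factorial : ℝ) = 6 := by norm_num [Nat.factorial]
  rw [h2] at h1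
  exact h1

theorem two_card (n : ℕ) : ∃ A : Finset (Fin n), ((two n A).card : ℝ) ≤ ((n : ℝ) + 1) ^ 3 / 24 := by
  obtain ⟨A, -, hA⟩ := exists_subset_card_eq (s := (univ : Finset (Fin n))) (n := n / 2) (by
    rw [card_univ, Fintype.card_fin]
    exact Nat.div_le_self n 2)
  refine ⟨A, ?_⟩
  have h1 := two_filter n A univ
  have h2 : (two n A).filter (· ⊆ univ) = two n A := filter_true_of_mem fun e _ => subset_univ e
  rw [h2, univ_inter, hA, card_sdiff_of_subset (subset_univ A), card_univ, Fintype.card_fin, hA] at h1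
  have h3 := choose3_le (n / 2)
  have h4 := choose3_le (n - n / 2)
  have h5 : ((n / 2 : ℕ) : ℝ) ≤ ((n : ℝ) + 1) / 2 := by
    have : 2 * (n / 2) ≤ n + 1 := by omega
    have h : (2 : ℝ) * ((n / 2 : ℕ) : ℝ) ≤ (n : ℝ) + 1 := by exact_mod_cast this
    linarith
  have h6 : ((n - n / 2 : ℕ) : ℝ) ≤ ((n : ℝ) + 1) / 2 := by
    have : 2 * (n - n / 2) ≤ n + 1 := by omega
    have h : (2 : ℝ) * ((n - n / 2 : ℕ) : ℝ) ≤ (n : ℝ) + 1 := by exact_mod_cast this
    linarith
  have h7 : ((n / 2 : ℕ) : ℝ) ^ 3 ≤ (((n : ℝ) + 1) / 2) ^ 3 :=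
    pow_le_pow_left₀ (Nat.cast_nonneg _) h5 3
  have h8 : ((n - n / 2 : ℕ) : ℝ) ^ 3 ≤ (((n : ℝ) + 1) / 2) ^ 3 :=
    pow_le_pow_left₀ (Nat.cast_nonneg _) h6 3
  have h9 : ((two n A).card : ℝ) = ((n / 2).choose 3 : ℝ) + ((n - n / 2).choose 3 : ℝ) := by
    rw [h1]
    push_cast
    rfl
  rw [h9]
  have h10 : (((n : ℝ) + 1) / 2) ^ 3 = ((n : ℝ) + 1) ^ 3 / 8 := by ring
  rw [h10] at h7 h8
  linarith

theorem choose3_ge (n : ℕ) (hn : 2 ≤ n) : ((n : ℝ) - 2) ^ 3 / 6 ≤ (n.choose 3 : ℝ) := by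
  obtain ⟨l, rfl⟩ := Nat.exists_eq_add_of_le hn
  have h1 := Nat.descFactorial_eq_factorial_mul_choose (2 + l) 3
  have h2 : (2 + l).descFactorial 3 = (2 + l) * (1 + l) * l := by
    simp only [Nat.descFactorial_succ, Nat.descFactorial_zero]
    have e2 : 2 + l - 2 = l := by omega
    have e3 : 2 + l - 1 = 1 + l := by omega
    rw [e2, e3, Nat.sub_zero]
    ring
  rw [h2] at h1
  have h3 : ((2 + l) * (1 + l) * l : ℝ) = 6 * ((2 + l).choose 3 : ℝ) := by
    have h4 : (3 : ℕ).factorial = 6 := rfl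
    rw [h4] at h1
    exact_mod_cast h1
  push_cast
  have h5 : (0 : ℝ) ≤ l := Nat.cast_nonneg l
  have h6 : ((2 : ℝ) + l - 2) ^ 3 ≤ (2 + l) * (1 + l) * l := by
    have : ((2 : ℝ) + l) * (1 + l) * l - (2 + l - 2) ^ 3 = 3 * l ^ 2 + 2 * l := by ring
    nlinarith [sq_nonneg (l : ℝ)]
  linarith

end upper

section final

theorem main_fin (n : ℕ) (F : Finset (Finset (Fin n))) (hF : ∀ e ∈ F, e.card = 3)
    (h5 : ∀ S : Finset (Fin n), S.card = 5 → ∃ e ∈ F, e ⊆ S) :
    (n : ℝ) ^ 3 / 24 - 13 * (n : ℝ) ^ 2 -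
      32 * (((univ.filter fun S : Finset (Fin n) =>
        S.card = 4 ∧ (F.filter (· ⊆ S)).card = 2).card : ℝ) * (n : ℝ) ^ 5) ^ (1 / 3 : ℝ) ≤
        F.card := by
  have h1 := main_bound F hF univ (by
    intro A _ hA h0
    obtain ⟨e, he, heA⟩ := h5 A hA
    unfold E at h0
    rw [card_eq_zero, filter_eq_empty_iff] at h0
    exact h0 he heA)
  have h2 : M4 F univ = univ.filter fun S : Finset (Fin n) =>
      S.card = 4 ∧ (F.filter (· ⊆ S)).card = 2 := by
    unfold M4 E
    ext S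
    simp [mem_powersetCard]
  have h3 : E F univ = F.card := by
    unfold E
    rw [filter_true_of_mem fun e _ => subset_univ e]
  rw [h2, h3, card_univ, Fintype.card_fin] at h1
  exact h1

theorem restricted :
    Filter.Tendsto
      (fun n : ℕ =>
        ((sInf {m : ℕ | ∃ F : Finset (Finset (Fin n)),
            (∀ e ∈ F, e.card = 3) ∧
            (∀ S : Finset (Fin n), S.card = 5 → ∃ e ∈ F, e ⊆ S) ∧
            (∀ S : Finset (Fin n), S.card = 4 → (F.filter (· ⊆ S)).card ≠ 2) ∧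
            F.card = m} : ℕ) : ℝ) / ((n.choose 3 : ℕ) : ℝ))
      Filter.atTop (nhds (1 / 4 : ℝ)) := by
  have hlow : Filter.Tendsto (fun n : ℕ => (1 / 4 : ℝ) - 78 / (n : ℝ)) Filter.atTop
      (nhds (1 / 4 : ℝ)) := by
    have h1 := tendsto_const_div_atTop_nhds_zero_nat (78 : ℝ)
    have h2 := (tendsto_const_nhds (x := (1 / 4 : ℝ))).sub h1
    rw [sub_zero] at h2
    exact h2
  have hup : Filter.Tendsto (fun n : ℕ => ((n : ℝ) + 1) ^ 3 / (4 * ((n : ℝ) - 2) ^ 3)) Filter.atTop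
      (nhds (1 / 4 : ℝ)) := by
    have h1 := tendsto_const_div_atTop_nhds_zero_nat (1 : ℝ)
    have h2 := tendsto_const_div_atTop_nhds_zero_nat (2 : ℝ)
    have h3 := (((tendsto_const_nhds (x := (1 : ℝ))).add h1).pow 3).div
      (((((tendsto_const_nhds (x := (1 : ℝ))).sub h2).pow 3).const_mul (4 : ℝ))) (by norm_num)
    have h4 : ((1 : ℝ) + 0) ^ 3 / (4 * (1 - 0) ^ 3) = 1 / 4 := by norm_num
    rw [h4] at h3
    refine h3.congr' ?_
    filter_upwards [Filter.eventually_gt_atTop 2] with n hn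
    have hn' : (2 : ℝ) < n := by exact_mod_cast hn
    have hn0 : (n : ℝ) ≠ 0 := by linarith
    have hn2 : (n : ℝ) - 2 ≠ 0 := by linarith
    have e1 : (1 : ℝ) + 1 / n = (n + 1) / n := by field_simp
    have e2 : (1 : ℝ) - 2 / n = (n - 2) / n := by field_simp
    simp only [Pi.div_apply]
    rw [e1, e2, div_pow, div_pow]
    field_simp
  refine tendsto_of_tendsto_of_tendsto_of_le_of_le' hlow hup ?_ ?_
  · filter_upwards [Filter.eventually_gt_atTop 2] with n hn
    have hn' : (2 : ℝ) < n := by exact_mod_cast hn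
    have hne : {m : ℕ | ∃ F : Finset (Finset (Fin n)),
            (∀ e ∈ F, e.card = 3) ∧
            (∀ S : Finset (Fin n), S.card = 5 → ∃ e ∈ F, e ⊆ S) ∧
            (∀ S : Finset (Fin n), S.card = 4 → (F.filter (· ⊆ S)).card ≠ 2) ∧
            F.card = m}.Nonempty :=
      ⟨_, two n ∅, two_card3 n ∅, two_five n ∅, two_four n ∅, rfl⟩
    obtain ⟨F, hF, h5, h4, hc⟩ := Nat.sInf_mem hne
    rw [← hc]
    have h1 := main_fin n F hF h5
    have h2 : (univ.filter fun S : Finset (Fin n) => S.card = 4 ∧ (F.filter (· ⊆ S)).card = 2) =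
        ∅ := by
      rw [filter_eq_empty_iff]
      rintro S - ⟨h6, h7⟩
      exact h4 S h6 h7
    rw [h2, card_empty, Nat.cast_zero, zero_mul, Real.zero_rpow (by norm_num), mul_zero,
      sub_zero] at h1
    have hC := choose3_le n
    have hC0 : (0 : ℝ) < (n.choose 3 : ℝ) := by
      exact_mod_cast Nat.choose_pos (by omega : 3 ≤ n)
    have hFc : (0 : ℝ) ≤ F.card := Nat.cast_nonneg _
    rw [le_div_iff₀ hC0]
    rcases le_or_gt ((1 / 4 : ℝ) - 78 / n) 0 with h6 | h6
    · nlinarith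
    · have h7 : ((1 / 4 : ℝ) - 78 / n) * (n.choose 3 : ℝ) ≤ ((1 / 4 : ℝ) - 78 / n) * (n ^ 3 / 6) :=
        mul_le_mul_of_nonneg_left hC h6.le
      have h8 : ((1 / 4 : ℝ) - 78 / n) * ((n : ℝ) ^ 3 / 6) = (n : ℝ) ^ 3 / 24 - 13 * (n : ℝ) ^ 2 := by
        have : (n : ℝ) ≠ 0 := by linarith
        field_simp
        ring
      linarith
  · filter_upwards [Filter.eventually_gt_atTop 2] with n hn
    have hn' : (2 : ℝ) < n := by exact_mod_cast hn
    obtain ⟨A, hA⟩ := two_card n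
    have h1 : sInf {m : ℕ | ∃ F : Finset (Finset (Fin n)),
            (∀ e ∈ F, e.card = 3) ∧
            (∀ S : Finset (Fin n), S.card = 5 → ∃ e ∈ F, e ⊆ S) ∧
            (∀ S : Finset (Fin n), S.card = 4 → (F.filter (· ⊆ S)).card ≠ 2) ∧
            F.card = m} ≤ (two n A).card :=
      Nat.sInf_le ⟨two n A, two_card3 n A, two_five n A, two_four n A, rfl⟩
    have h2 : ((sInf {m : ℕ | ∃ F : Finset (Finset (Fin n)),
            (∀ e ∈ F, e.card = 3) ∧
            (∀ S : Finset (Fin n), S.card = 5 → ∃ e ∈ F, e ⊆ S) ∧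
            (∀ S : Finset (Fin n), S.card = 4 → (F.filter (· ⊆ S)).card ≠ 2) ∧
            F.card = m} : ℕ) : ℝ) ≤ ((n : ℝ) + 1) ^ 3 / 24 := by
      refine le_trans ?_ hA
      exact_mod_cast h1
    have h3 := choose3_ge n (by omega)
    have h4 : 0 < ((n : ℝ) - 2) ^ 3 / 6 := by
      have : 0 < (n : ℝ) - 2 := by linarith
      positivity
    have h5 : ((n : ℝ) + 1) ^ 3 / (4 * ((n : ℝ) - 2) ^ 3) =
        (((n : ℝ) + 1) ^ 3 / 24) / (((n : ℝ) - 2) ^ 3 / 6) := by
      have : (n : ℝ) - 2 ≠ 0 := by linarith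
      field_simp
      norm_num
    rw [h5]
    exact div_le_div₀ (by positivity) h2 h4 h3

end final

end Pool.Agent.MP_19b7b8_co.T53
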